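import Mathlib
import Pool.Agent.helper12.FI.Defs

/-!
# Project fi (MP_baa4d7_al), BLOCK R: idempotents and traces

RULES FOR ROWS. File `Pool/Agent/<seat>/FIB/XXX.lean` (directory `FIB`) with

  import Pool.Agent.helper83.FI.SpecR
  set_option autoImplicit false
  namespace Pool.Agent.FI
  open Pool.Agent.helper58.DC Pool.Agent.DI Pool.Agent.GR Pool.Agent.OB
  theorem XXX (hYYY : YYY_stmt) ... : XXX_stmt := ...
  end Pool.Agent.FI

auxiliary lemmas prefixed `XXX_`, no sorry, no double quotes in the file. Rows of this file and rows of the projects GR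
(`helper83/GR/Spec`: CVF EXP SCH CCI IDM SFC EIN BR0 KEY KYG ORB PRD VAL ZER PPT GLP ..), DI (B2 B3 C3 C4 ..) and OB
(PWN BRP ..) may be taken as hypotheses (no circles). Lemmas on `IntAt`, `InM`, `Small` are in `helper83/GR/Ari.lean`.

Notation. `cv z w g = ∑ᶠ x, z x * w (x⁻¹ * g)` product of the group algebra, `cvp a k` its powers (`helper22/OB/SpecD`),
`cc ψ z = (∑ᶠ x, z x * ψ x) / ψ 1`, `ev χ i g = ∑ᶠ x, i x * χ (g * x)`, `Idm M H i`: `i` is supported on `H`, has `IntAt`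
values and `cv i i = i`; `Inv S i`; `rs y z` restriction of `z` to the centraliser of `y`.
-/

set_option autoImplicit false

namespace Pool.Agent.FI

open Pool.Agent.helper58.DC Pool.Agent.DI Pool.Agent.GR Pool.Agent.OB

section

variable {G : Type} [Group G]

/-- The coefficient of `z` in the product `i * w * j` (`w` a group element). -/
noncomputable def co (i j : G → ℂ) (z w : G) : ℂ := ∑ᶠ x, i x * j (w⁻¹ * (x⁻¹ * z))

open Classical in
/-- The restriction of `z` to the subgroup `K`, extended by zero. -/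
noncomputable def rsk (K : Subgroup G) (z : G → ℂ) : G → ℂ := fun x => if x ∈ K then z x else 0

/-- The polynomial `∑_{k < n} c k * a ^ (k + 1)` of the group algebra (without constant term). -/
noncomputable def plv (n : ℕ) (c : ℕ → ℂ) (a : G → ℂ) : G → ℂ :=
  ∑ k ∈ Finset.range n, c k • cvp a (k + 1)

end

/-! ## 1. Arithmetic and rigidity -/

/-- **ZEA** (short; from ZER). Proof: `Small p M 0 z` gives `IntAt M z`: `z * b = a`, `a`, `b` algebraic integers, `b ∉ M`. For every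
`r` the number `a = z * b` is `Small r` and integral, so `a = 0` by ZER, and `b ≠ 0` (`Setup.ne_zero`). -/
def ZEA_stmt : Prop :=
  ∀ (p : ℕ) (M : Ideal (integralClosure ℤ ℂ)), Setup p M → ∀ z : ℂ, (∀ r, Small p M r z) → z = 0

/-- **RPW** (medium; from VAL). Congruences of `p ^ t`-th powers. Proof: `x = z - z'`. By VAL `x ^ k` is `Small 1` for some `k`, so
`x ^ j` is `Small r` for all `j ≥ k * r` (`x` is `IntAt`; `(x ^ k) ^ r` is `Small r`). Take `N = r + k * r` and `t ≥ N`: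
`z ^ (p^t) - z' ^ (p^t) = ∑_{1 ≤ j ≤ p^t} C(p^t, j) * x ^ j * z' ^ (p^t - j)` (`add_pow`). If `j ≥ k * r` the term is `Small r`.
If `1 ≤ j < k * r` then `p ^ (t - v)` divides `C(p^t, j)`, `v = padicValNat p j ≤ j` (`j * C(n, j) = n * C(n-1, j-1)`; Mathlib:
`Nat.Prime.multiplicity_choose_prime_pow`, `padicValNat_choose` or the like), and `t - v ≥ r`. -/
def RPW_stmt : Prop :=
  ∀ (p : ℕ) (M : Ideal (integralClosure ℤ ℂ)), Setup p M → ∀ z z' : ℂ, IntAt M z → IntAt M z' →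
    InM M (z - z') → ∀ r : ℕ, ∃ N : ℕ, ∀ t ≥ N, Small p M r (z ^ p ^ t - z' ^ p ^ t)

/-- **RGM** (medium to long; from ORB, RPW). RIGIDITY for two idempotent matrices; extends KEY. You may
`import Pool.Agent.helper79.GR.KEY` and use its lemmas `KEY_ext`, `KEY_shift`, `KEY_ext_add`, `KEY_ext_inj`, `KEY_ext_iter`,
`KEY_trace`, `KEY_wR`; the first half of the proof of `KEY` there can be copied. Proof: we show `Small (r + 1)`. For
`c : Fin (p^r + 1) → Z` with all `π ^ n₀ (c i) = c i` let `W c = ∏_{i < p^r} ε (c i) (c (i+1))` and `W' c` the same for `ε'`; both are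
`IntAt`, `W c - W' c` is `InM` (`a b - a' b' = a (b - b') + (a - a') b'`). There are finitely many `c`, so by RPW there is `N` with
`Small (r+1) ((W c) ^ p^N - (W' c) ^ p^N)` for all of them. Put `l = r + N`, `m = p ^ l`. As in KEY
`∑_z ε z (π z) = ∑_c w c` over all `c : Fin m → Z` (extended by `c (i + m) = π (c i)`), `w c = ∏_{i<m} ε (c i) (c (i+1))`, and the same
for `ε'`, `w'`. By ORB for `Q = R ^ n₀` (`R` the shift) both sums are, up to `Small (r+1)`, the sums over the (same) set of the `c` with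
`c (i + n₀ p^r) = c i` for all `i`. For such `c`: `π ^ n₀ (c i) = c (i + n₀ m) = c i`. The sequence `e i = ε (c i) (c (i+1))` satisfies
`e (i + m) = e i` (`ε` is `π`-invariant) and `e (i + n₀ p^r) = e i`; as `p ∤ n₀` there are `a`, `b` with `a * n₀ = b * p^N + 1`, so
`a * n₀ * p^r = b * m + p^r` and `e (i + p^r) = e i`. Hence `w c = (∏_{i < p^r} e i) ^ (p^N)`, similarly `w' c`, and the difference is
`Small (r+1)`. Sum over `c`; finally `Small.mono`. -/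
def RGM_stmt : Prop :=
  ∀ (p : ℕ) (M : Ideal (integralClosure ℤ ℂ)), Setup p M → ∀ (Z : Type) [Fintype Z]
    (ε ε' : Z → Z → ℂ) (π : Equiv.Perm Z) (n n₀ : ℕ), ¬ p ∣ n₀ → π ^ (p ^ n * n₀) = 1 →
    (∀ z w, IntAt M (ε z w)) → (∀ z w, IntAt M (ε' z w)) →
    (∀ z w, ∑ u, ε z u * ε u w = ε z w) → (∀ z w, ∑ u, ε' z u * ε' u w = ε' z w) →
    (∀ z w, ε (π z) (π w) = ε z w) → (∀ z w, ε' (π z) (π w) = ε' z w) →
    (∀ z w, (π ^ n₀) z = z → (π ^ n₀) w = w → InM M (ε z w - ε' z w)) →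
    ∀ r : ℕ, Small p M r (∑ z, ε z (π z) - ∑ z, ε' z (π z))

/-! ## 2. Traces -/

/-- **COF** (short to medium; no rows). Facts on `co`, all by direct computation. (1): the operator `w ↦ i w j`; expand, put `y` for the
second variable, `u = x u' y`. (2) `co i j z w ≠ 0` gives `x ∈ H` and `w⁻¹ x⁻¹ z ∈ H`. (3) replace `x` by `a x a⁻¹`. (4), (5), (6) clear. -/
def COF_stmt : Prop :=
  ∀ (G : Type) [Group G] [Finite G],
    (∀ (i j i' j' : G → ℂ) (z w : G),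
      ∑ᶠ u, co i j z u * co i' j' u w = co (cv i i') (cv j' j) z w) ∧
    (∀ (H : Subgroup G) (i j : G → ℂ), (∀ x, x ∉ H → i x = 0) → (∀ x, x ∉ H → j x = 0) →
      ∀ z w, (z ∈ H ∧ w ∉ H ∨ z ∉ H ∧ w ∈ H) → co i j z w = 0) ∧
    (∀ (i j : G → ℂ) (a b : G), (∀ x, i (a * x * a⁻¹) = i x) → (∀ x, j (b * x * b⁻¹) = j x) →
      ∀ z w, co i j (a * z * b⁻¹) (a * w * b⁻¹) = co i j z w) ∧
    (∀ (p : ℕ) (M : Ideal (integralClosure ℤ ℂ)), Setup p M → ∀ i j : G → ℂ, (∀ x, IntAt M (i x)) →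
      (∀ x, IntAt M (j x)) → ∀ z w, IntAt M (co i j z w)) ∧
    (∀ (i j : G → ℂ) (z w : G), co i j z w = cv i (fun t => j (w⁻¹ * t * w)) (z * w⁻¹)) ∧
    (∀ (j : G → ℂ) (z w : G), co 0 j z w = 0)

/-- **EVF** (short; from B2 of DI). Facts on `ev`. (4): replace `x` by `h x h⁻¹` and use that `ψ` is a class function of `H`. -/
def EVF_stmt : Prop :=
  ∀ (G : Type) [Group G] [Finite G] (ψ : G → ℂ) (g : G),
    (∀ i j : G → ℂ, ev ψ (i + j) g = ev ψ i g + ev ψ j g ∧ ev ψ (i - j) g = ev ψ i g - ev ψ j g) ∧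
    (∀ (k : ℂ) (i : G → ℂ), ev ψ (k • i) g = k * ev ψ i g) ∧ ev ψ dl g = ψ g ∧ ev ψ 0 g = 0 ∧
    ∀ (H : Subgroup G), ψ ∈ IrrOn H → ∀ h ∈ H, ∀ i : G → ℂ,
      ev ψ i (h * g * h⁻¹) = ev ψ (fun x => i (h * x * h⁻¹)) g

/-- **EVM** (short to medium; from SCH, B2 of DI). A class function acts as a scalar. Proof: `i = dl` gives the second item. First item:
`ev ψ (cv z i) g = ∑_{x, y} z x * i y * ψ (g * (x * y))`, and `ψ (g x y) = ψ ((y g) x)` (`ψ` is a class function of `H`, `y g = y (g x y) (x y)⁻¹ ..`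
for `x, y ∈ H`; other terms vanish). Average over `t ∈ H`, `z` is an `H`-class function: `∑_x z x ψ ((y g) x)
= |H|⁻¹ ∑_x z x ∑_{t ∈ H} ψ ((y g) * (t x t⁻¹)) = ∑_x z x * ψ (y g) ψ x / ψ 1` by SCH. -/
def EVM_stmt : Prop :=
  ∀ (G : Type) [Group G] [Finite G] (H : Subgroup G), ∀ ψ ∈ IrrOn H, ∀ z : G → ℂ, CF H z → ∀ g ∈ H,
    (∀ i : G → ℂ, (∀ x, x ∉ H → i x = 0) →
      ev ψ (cv z i) g = cc ψ z * ev ψ i g ∧ ev ψ (cv i z) g = cc ψ z * ev ψ i g) ∧
    ev ψ z g = cc ψ z * ψ g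

/-- **TRC** (medium; from IDM, EXP, CCI of GR, B2 of DI). TRACE FORMULA. Proof: the idempotent `eS H (IrrOn H)` has `cc ψ = 1` for all `ψ ∈ IrrOn H`
(IDM), as `dl` (CCI), so it is `dl` (EXP; `CF H dl` by CVF); so by the last item of IDM for `g, h ∈ H`:
`∑_χ χ g * χ h⁻¹ = #{z ∈ H | z⁻¹ g z = h}` (second orthogonality relation). The right side is
`∑_{x, y ∈ H} i x * j y * ∑_χ χ (a x) * χ (b⁻¹ y)`, and the inner sum (`g = a x`, `h = y⁻¹ b`) is the number of `z ∈ H` with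
`z⁻¹ (a x) z = y⁻¹ b`; replacing `z` by `a z` it is the number of `z ∈ H` with `z⁻¹ (x a) z = y⁻¹ b`, i.e.
`y = (a z b⁻¹)⁻¹ * (x⁻¹ * z)`. Sum over `y` first. -/
def TRC_stmt : Prop :=
  ∀ (G : Type) [Group G] [Finite G] (H : Subgroup G) (i j : G → ℂ), (∀ x, x ∉ H → i x = 0) →
    (∀ x, x ∉ H → j x = 0) → ∀ a ∈ H, ∀ b ∈ H,
    ∑ᶠ z ∈ (H : Set G), co i j z (a * z * b⁻¹) = ∑ᶠ χ ∈ IrrOn H, ev χ i a * ev χ j b⁻¹

/-- **CHC** (short; from GLP). Complex conjugation of character values: GLP for `σ` the complex conjugation (as a ring automorphism of `ℂ`,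
`starRingAut` or `Complex.conjAe`), `s = |G| - 1` (coprime to `|G|`), `σ ζ = ζ⁻¹ = ζ ^ s` for `ζ ^ |G| = 1`; `g ^ s = g⁻¹`. -/
def CHC_stmt : Prop :=
  ∀ (G : Type) [Group G] [Finite G] (H : Subgroup G), ∀ ψ ∈ IrrOn H, ∀ g : G,
    starRingEnd ℂ (ψ g) = ψ g⁻¹

/-- **CJI** (medium; no rows). Proof: let `ρ : Representation ℂ H V` afford `χ`, `E = ∑_{x ∈ H} i x • ρ x`, so `E * E = E` (`cv i i = i`),
`ρ g * E = E * ρ g`, `ev χ i g = trace (ρ g * E)`, `ev χ i g⁻¹ = trace (ρ g⁻¹ * E)`. Let `n = |G|`, `B = ρ g * E + (1 - E)`,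
`B' = ρ g⁻¹ * E + (1 - E)`; `B ^ k = ρ (g ^ k) * E + (1 - E)`, so `B ^ n = 1`, `B ^ (n - 1) = B'`. By `GLP_trace` of
`Pool/Agent/helper32/GR/GLP.lean` (import it) for `σ` the complex conjugation, `N = n`, `s = n - 1`: `conj (trace B) = trace B'`; the same
for `f = E + (1 - E) * (-1) = 2 E - 1` (`f ^ 2 = 1`, so `conj (trace f) = trace f`) shows that `trace E` is real; `trace 1` is a natural
number. Subtract. (`trace (1 - E)` real is all that is needed.) -/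
def CJI_stmt : Prop :=
  ∀ (G : Type) [Group G] [Finite G] (H : Subgroup G) (i : G → ℂ), (∀ x, x ∉ H → i x = 0) →
    cv i i = i → ∀ g ∈ H, (∀ x, i (g * x * g⁻¹) = i x) → ∀ χ ∈ IrrOn H,
    ev χ i g⁻¹ = starRingEnd ℂ (ev χ i g)

/-! ## 3. Rigidity for the group algebra -/

/-- **RPY** (short). Chinese remainder theorem for the orders (`y ^ p^n = 1`, `p ∤ orderOf v`). -/
def RPY_stmt : Prop :=
  ∀ (p : ℕ), p.Prime → ∀ (G : Type) [Group G] [Finite G] (y v : G), PEl p y → PReg p v →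
    Commute y v → (∃ k : ℕ, (y * v) ^ k = y) ∧ ∃ k : ℕ, (y * v) ^ k = v

/-- **RCY** (short; from ORB). Proof: ORB with `r = 0` for `R x = y x y⁻¹` on `G` and the summands `i x * j (w⁻¹ * (x⁻¹ * z))` of `co i j z w`:
they are `R`-invariant because `w⁻¹ y = y' w⁻¹`, `y⁻¹ z = z y'⁻¹`, so `w⁻¹ (y x y⁻¹)⁻¹ z = y' (w⁻¹ x⁻¹ z) y'⁻¹`. The `x` with `R x = x` are those
with `y * x = x * y` (`rs y i`). `Small 1` implies `InM`. -/
def RCY_stmt : Prop :=
  ∀ (p : ℕ) (M : Ideal (integralClosure ℤ ℂ)), Setup p M → ∀ (G : Type) [Group G] [Finite G]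
    (y y' : G), PEl p y → ∀ i j : G → ℂ, (∀ x, IntAt M (i x)) → (∀ x, IntAt M (j x)) →
    (∀ x, i (y * x * y⁻¹) = i x) → (∀ x, j (y' * x * y'⁻¹) = j x) →
    ∀ z w : G, z⁻¹ * y * z = y' → w⁻¹ * y * w = y' → InM M (co i j z w - co (rs y i) j z w)

/-- **RGK** (medium; from RGM, TRC, COF, ZEA). Proof: RGM for the type `Z = H`, `ε z w = co i j z w`, `ε' z w = co i' j' z w`, `π z = a z b⁻¹`, `a = y v`,
`b = y' v'`, `n₀ = orderOf v * orderOf v'` (compare `Pool/Agent/helper28/GR/KYG.lean`). Idempotent: COF (1), (2), `cv i i = i`, `cv j j = j`.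
Invariant: COF (3). `π ^ k z = a^k z b^(-k)`; `π ^ (p^n n₀) = 1` if `y ^ p^n = y' ^ p^n = 1`. If `π ^ n₀ z = z` then `y^n₀ z = z y'^n₀`, and as `n₀`
is prime to `p`, `y z = z y'`, i.e. `z⁻¹ y z = y'`. So the difference of the two sums is `Small r` for all `r`, hence `0` (ZEA); both sums are computed
by TRC. -/
def RGK_stmt : Prop :=
  ∀ (p : ℕ) (M : Ideal (integralClosure ℤ ℂ)), Setup p M → ∀ (G : Type) [Group G] [Finite G]
    (H : Subgroup G), ∀ y ∈ H, ∀ v ∈ H, ∀ y' ∈ H, ∀ v' ∈ H, PEl p y → PEl p y' → PReg p v →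
    PReg p v' → Commute y v → Commute y' v' → ∀ i j i' j' : G → ℂ, Idm M H i → Idm M H j →
    Idm M H i' → Idm M H j' → (∀ x, i ((y * v) * x * (y * v)⁻¹) = i x) →
    (∀ x, i' ((y * v) * x * (y * v)⁻¹) = i' x) → (∀ x, j ((y' * v') * x * (y' * v')⁻¹) = j x) →
    (∀ x, j' ((y' * v') * x * (y' * v')⁻¹) = j' x) →
    (∀ z ∈ H, ∀ w ∈ H, z⁻¹ * y * z = y' → w⁻¹ * y * w = y' → InM M (co i j z w - co i' j' z w)) →
    ∑ᶠ χ ∈ IrrOn H, ev χ i (y * v) * ev χ j (y' * v')⁻¹ =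
      ∑ᶠ χ ∈ IrrOn H, ev χ i' (y * v) * ev χ j' (y' * v')⁻¹

/-- **RR1** (medium; from RGK, RCY, RPY, CJI, B2 of DI). UNIQUENESS. Proof: let `g = y v` and `T i₁ i₂ = ∑_χ ev χ i₁ g * ev χ i₂ g⁻¹`. For
`i₁, i₂, i₁', i₂' ∈ {i, i'}` we show `T i₁ i₂ = T i₁' i₂'` by RGK with `y' = y`, `v' = v`: let `z, w ∈ H` commute with `y`. All four functions are
invariant under `y` (a power of `g`, RPY). By RCY it suffices that `co (rs y i₁) i₂ z w - co (rs y i₁') i₂' z w` is `InM`: termwise, for `x` commuting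
with `y`: if `x ∉ H` both terms are `0`; otherwise `x` and `w⁻¹ x⁻¹ z` are in `Cz H y`, where `i₁ - i₁'`, `i₂ - i₂'` are `InM`. Then
`T i i - T i i' - T i' i + T i' i' = 0`, i.e. `∑_χ (ev χ i g - ev χ i' g) * (ev χ i g⁻¹ - ev χ i' g⁻¹) = 0`; by CJI the summands are
`‖ev χ i g - ev χ i' g‖ ^ 2 ≥ 0`, so all are `0` (`IrrOn H` is finite). -/
def RR1_stmt : Prop :=
  ∀ (p : ℕ) (M : Ideal (integralClosure ℤ ℂ)), Setup p M → ∀ (G : Type) [Group G] [Finite G]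
    (H : Subgroup G), ∀ y ∈ H, ∀ v ∈ H, PEl p y → PReg p v → Commute y v → ∀ i i' : G → ℂ,
    Idm M H i → Idm M H i' → (∀ x, i ((y * v) * x * (y * v)⁻¹) = i x) →
    (∀ x, i' ((y * v) * x * (y * v)⁻¹) = i' x) → (∀ x ∈ Cz H y, InM M (i x - i' x)) →
    ∀ χ ∈ IrrOn H, ev χ i (y * v) = ev χ i' (y * v)

/-- **RR2** (short; from RGK, RCY, RPY, COF, EVF). ORTHOGONALITY. Proof: RGK for `i, j` and `i' = j' = 0` (`Idm M H 0`; `ev χ 0 g = 0`, `co 0 0 z w = 0`).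
`i` is invariant under `y` and `j` under `y'` (RPY), so `co i j z w - co (rs y i) j z w` is `InM` by RCY. In particular the sum is `0` if `y`, `y'` are
not conjugate in `H` (the hypothesis is empty). -/
def RR2_stmt : Prop :=
  ∀ (p : ℕ) (M : Ideal (integralClosure ℤ ℂ)), Setup p M → ∀ (G : Type) [Group G] [Finite G]
    (H : Subgroup G), ∀ y ∈ H, ∀ v ∈ H, ∀ y' ∈ H, ∀ v' ∈ H, PEl p y → PEl p y' → PReg p v →
    PReg p v' → Commute y v → Commute y' v' → ∀ i j : G → ℂ, Idm M H i → Idm M H j →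
    (∀ x, i ((y * v) * x * (y * v)⁻¹) = i x) → (∀ x, j ((y' * v') * x * (y' * v')⁻¹) = j x) →
    (∀ z ∈ H, ∀ w ∈ H, z⁻¹ * y * z = y' → w⁻¹ * y * w = y' → InM M (co (rs y i) j z w)) →
    ∑ᶠ χ ∈ IrrOn H, ev χ i (y * v) * ev χ j (y' * v')⁻¹ = 0

/-- **RR3** (medium; from RGM, TRC, COF, ZEA). Idempotents supported on `L = Cz H y`. Proof: RGM for the type `Z = H`, `ε z w = co i j z w`,
`ε' z w = co i j z w` if `z ∈ L` and `w ∈ L`, `0` otherwise, `π z = a z b⁻¹`, `a = y v`, `b = y v'`, `n₀ = orderOf v * orderOf v'`. Idempotent: COF (1), (2)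
for `H` and for `L`; `ε'` is `π`-invariant because `a, b ∈ L`. If `π ^ n₀ z = z` then `y z = z y` as in RGK, so `z ∈ L`; so `ε z w = ε' z w` for fixed
`z`, `w`. The sums are `Small r` close for all `r`, hence equal (ZEA). TRC for `H` and for `L`. -/
def RR3_stmt : Prop :=
  ∀ (p : ℕ) (M : Ideal (integralClosure ℤ ℂ)), Setup p M → ∀ (G : Type) [Group G] [Finite G]
    (H : Subgroup G), ∀ y ∈ H, PEl p y → ∀ v ∈ Cz H y, ∀ v' ∈ Cz H y, PReg p v → PReg p v' →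
    ∀ i j : G → ℂ, Idm M (Cz H y) i → Idm M (Cz H y) j →
    (∀ x, i ((y * v) * x * (y * v)⁻¹) = i x) → (∀ x, j ((y * v') * x * (y * v')⁻¹) = j x) →
    ∑ᶠ χ ∈ IrrOn H, ev χ i (y * v) * ev χ j (y * v')⁻¹ =
      ∑ᶠ ψ ∈ IrrOn (Cz H y), ev ψ i (y * v) * ev ψ j (y * v')⁻¹

/-- **RR4** (short to medium; from RR3, EVM, CJI, IDM, EIN, SFC, CCI of GR, B2 of DI). NORM. Proof: let `L = Cz H y`, `i = eS L S`, `j = eS L S'` (`Idm M L` by IDM and EIN, invariant
under `L`). By EVM and IDM `ev ψ (eS L S) g = ψ g` if `ψ ∈ S` and `0` otherwise (`ψ ∈ IrrOn L`, `g ∈ L`). So RR3 gives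
`∑_{ψ ∈ S ∩ S'} ψ (y v) * ψ (y v')⁻¹ = Sf (S ∩ S') (y v) (y v') = Sf (S ∩ S') v v'` (SFC; `y` is central in `L`). Second item: `v = v' = 1`, `S' = S` and CJI. -/
def RR4_stmt : Prop :=
  ∀ (p : ℕ) (M : Ideal (integralClosure ℤ ℂ)), Setup p M → ∀ (G : Type) [Group G] [Finite G]
    (H : Subgroup G), ∀ y ∈ H, PEl p y → ∀ S S' : Set (G → ℂ), BC M (Cz H y) S → BC M (Cz H y) S' →
    (∀ v ∈ Cz H y, ∀ v' ∈ Cz H y, PReg p v → PReg p v' →
      ∑ᶠ χ ∈ IrrOn H, ev χ (eS (Cz H y) S) (y * v) * ev χ (eS (Cz H y) S') (y * v')⁻¹ =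
        Sf (S ∩ S') v v') ∧
    ∑ᶠ χ ∈ IrrOn H, ev χ (eS (Cz H y) S) y * starRingEnd ℂ (ev χ (eS (Cz H y) S) y) =
      ∑ᶠ ψ ∈ S, ψ 1 * ψ 1

/-- **PRJ** (short to medium; from KYG or KEY, ZEA). Proof: KEY for the type `Z = H`, `ε z w = i (z⁻¹ w)` (`∑_u i (z⁻¹ u) i (u⁻¹ w) = cv i i (z⁻¹ w)`), `π z = g z`,
`n₀ = orderOf v`, where `g = y v`, `y ≠ 1` the `p`-part, `v` the `p`-regular part (both powers of `g`). `g ^ n₀ = y ^ n₀ ≠ 1`, so `π ^ n₀` has no fixed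
points. The sum `∑_z i (z⁻¹ g z)` is `Small r` for all `r`, so `0` (ZEA); replace `z` by `z⁻¹`. (Or KYG with `y' = v' = 1`.) -/
def PRJ_stmt : Prop :=
  ∀ (p : ℕ) (M : Ideal (integralClosure ℤ ℂ)), Setup p M → ∀ (G : Type) [Group G] [Finite G]
    (H : Subgroup G) (i : G → ℂ), Idm M H i → ∀ g ∈ H, ¬ PReg p g →
    ∑ᶠ z ∈ (H : Set G), i (z * g * z⁻¹) = 0

/-- **TRP** (short; from PRJ). Proof: `f = ψ - ψ'` is invariant under `H` and vanishes on the `p`-regular elements of `H`.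
`|H| * ∑_{x ∈ H} i x * f x = ∑_{x ∈ H} ∑_{h ∈ H} i (h x h⁻¹) * f (h x h⁻¹) = ∑_{x ∈ H} f x * ∑_{h ∈ H} i (h x h⁻¹)`, and every term is `0`: `f x = 0` or PRJ. -/
def TRP_stmt : Prop :=
  ∀ (p : ℕ) (M : Ideal (integralClosure ℤ ℂ)), Setup p M → ∀ (G : Type) [Group G] [Finite G]
    (H : Subgroup G) (i : G → ℂ), Idm M H i → ∀ ψ ψ' : G → ℂ,
    (∀ h ∈ H, ∀ x, ψ (h * x * h⁻¹) = ψ x) → (∀ h ∈ H, ∀ x, ψ' (h * x * h⁻¹) = ψ' x) →
    (∀ v ∈ H, PReg p v → ψ v = ψ' v) → ev ψ i 1 = ev ψ' i 1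

/-! ## 4. Lifting idempotents -/

open Polynomial in
/-- **IDR** (short; no rows). The local ring is integrally closed in `ℂ`. Proof: `b ∉ M` with all `F.coeff k * b` integral (`IntAt.common`); the polynomial
`F.scaleRoots b` is monic, its coefficients `F.coeff k * b ^ (n - k)`, `k < n`, are integral over `ℤ`, and `b * z` is a root
(`Polynomial.scaleRoots_aeval_eq_zero` or by hand). So `b * z` is integral over `ℤ` (Mathlib: `isIntegral_of_aeval_monic_of_isIntegral_coeff` or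
integrality is transitive), and `z = (b z) / b`. -/
def IDR_stmt : Prop :=
  ∀ (p : ℕ) (M : Ideal (integralClosure ℤ ℂ)), Setup p M → ∀ F : ℂ[X], F.Monic →
    (∀ k, IntAt M (F.coeff k)) → ∀ z : ℂ, F.eval z = 0 → IntAt M z

open Polynomial in
/-- **IDB** (medium; from IDR). Proof: let `R` be the subring of `ℂ` of all `IntAt` numbers. `F = ∏ (X - λ)` over the multiset of its roots, all in `R` by IDR.
Let `F₀` (`F₁`) be the product over the `λ` which are (are not) `InM`, both in `R[X]`, `d = deg F₀`. If `a` is `InM` and `μ ∈ R` is not then `a - μ` is a unit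
of `R` (inverse of an `IntAt`, not `InM` number is `IntAt`), so `X - C a` and `X - C μ` are coprime in `R[X]`
(`Polynomial.isCoprime_X_sub_C_of_isUnit_sub`), also for `a = 0`; so `X * F₀` and `F₁` are coprime (`IsCoprime.mul_left`, products):
`U * (X * F₀) + V * F₁ = 1`. Put `e = U * X * F₀`, `1 - e = V * F₁`, `e * (1 - e) = U * X * V * F`. All coefficients of `X ^ d - F₀` are `InM` (induction over the
factors), so for `N ≥ d`: `X ^ N * (1 - e) = X ^ (N - d) * V * F + X ^ (N - d) * (X ^ d - F₀) * V * F₁`. Map everything to `ℂ[X]`. -/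
def IDB_stmt : Prop :=
  ∀ (p : ℕ) (M : Ideal (integralClosure ℤ ℂ)), Setup p M → ∀ F : ℂ[X], F.Monic →
    (∀ k, IntAt M (F.coeff k)) → ∃ e q : ℂ[X], e.coeff 0 = 0 ∧ (∀ k, IntAt M (e.coeff k)) ∧
      e * (1 - e) = q * F ∧ ∃ N₀ : ℕ, ∀ N ≥ N₀, ∃ q' r : ℂ[X],
        X ^ N * (1 - e) = q' * F + r ∧ ∀ k, InM M (r.coeff k)

/-- **IDP** (medium; from IDB, CVF). LIFTING. Proof: for `z : G → ℂ` let `Φ z` be the matrix `(g, x) ↦ z (g * x⁻¹)` (index set `G`). `Φ` is linear, injective,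
`Φ (cv z w) = Φ z * Φ w`, `Φ dl = 1`, so `Φ (cvp a k) = (Φ a) ^ k`. Let `F` be the characteristic polynomial of `Φ a`: monic, coefficients `IntAt` (the entries
are in the subring of the `IntAt` numbers; `Matrix.charpoly_map`, or `charpoly` coefficients are polynomials in the entries), `aeval (Φ a) F = 0`
(`Matrix.aeval_self_charpoly`). Take `e` from IDB, `c k = e.coeff (k + 1)`, `n = e.natDegree + 1`, `i = plv n c a`: `Φ i = aeval (Φ a) e` as `e.coeff 0 = 0`.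
`e * (1 - e) = q * F` gives `Φ i = Φ i * Φ i`, so `cv i i = i`. `Φ (cvp a N - cv (cvp a N) i) = aeval (Φ a) (X ^ N * (1 - e)) = aeval (Φ a) r`, with `InM` entries. -/
def IDP_stmt : Prop :=
  ∀ (p : ℕ) (M : Ideal (integralClosure ℤ ℂ)), Setup p M → ∀ (G : Type) [Group G] [Finite G]
    (H : Subgroup G) (a : G → ℂ), (∀ x, x ∉ H → a x = 0) → (∀ x, IntAt M (a x)) →
    ∃ (n : ℕ) (c : ℕ → ℂ), (∀ k, IntAt M (c k)) ∧ Idm M H (plv n c a) ∧
      ∃ N₀ : ℕ, ∀ N ≥ N₀, ∀ x, InM M (cvp a N x - cv (cvp a N) (plv n c a) x)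

/-- **PLF** (short to medium; from CVF). Facts on `cvp` and `plv`, all by induction and linearity. (The powers of `a` commute with each other: `cvp a k = a * .. * a`.) -/
def PLF_stmt : Prop :=
  ∀ (G : Type) [Group G] [Finite G] (a : G → ℂ),
    (∀ k l, cvp a (k + l) = cv (cvp a k) (cvp a l)) ∧
    (∀ (n : ℕ) (c : ℕ → ℂ) (n' : ℕ) (c' : ℕ → ℂ),
      cv (plv n c a) (plv n' c' a) = cv (plv n' c' a) (plv n c a)) ∧
    (∀ b : G → ℂ, cv a b = cv b a → ∀ (n : ℕ) (c : ℕ → ℂ), cv (plv n c a) b = cv b (plv n c a)) ∧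
    (∀ H : Subgroup G, (∀ x, x ∉ H → a x = 0) → ∀ (n : ℕ) (c : ℕ → ℂ) (x : G), x ∉ H → plv n c a x = 0) ∧
    (∀ S : Subgroup G, Inv S a → ∀ (n : ℕ) (c : ℕ → ℂ), Inv S (cvp a n) ∧ Inv S (plv n c a)) ∧
    (∀ b : G → ℂ, (cv b a = a → ∀ (n : ℕ) (c : ℕ → ℂ), cv b (plv n c a) = plv n c a) ∧
      (cv a b = a → ∀ (n : ℕ) (c : ℕ → ℂ), cv (plv n c a) b = plv n c a)) ∧
    (∀ (p : ℕ) (M : Ideal (integralClosure ℤ ℂ)), Setup p M → (∀ x, IntAt M (a x)) →
      ∀ (n : ℕ) (c : ℕ → ℂ), (∀ k, IntAt M (c k)) → ∀ x, IntAt M (cvp a n x) ∧ IntAt M (plv n c a x)) ∧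
    ∀ (e : G → ℂ), cv e e = e → ∀ (n : ℕ) (c : ℕ → ℂ), plv n c e = (∑ k ∈ Finset.range n, c k) • e

/-- **SA1** (short to medium; from PRD, ZEA, CVF). Proof: `d = e - f` satisfies `cv (cv d d) d = d` (expand, `e f = f e`), so `cvp d m = d` for all odd `m`
(`cvp d (m + 2) = cvp d m`-type induction). Every value of `cvp d m` is a sum of products of `m` values of `d`, a finite set of `InM` numbers (say:
`cvp d m x` is a sum of `∏_{i<m} d (c i)` over the `c : Fin m → G` with product `x`; or by induction: the `Small`-exponent). By PRD all these products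
are `Small r` for `m` large. So all values of `d` are `Small r` for all `r`, hence `0` (ZEA). (Other way: VAL for each of the finitely many values, the additive
valuation is discrete enough: there is no need for it.) -/
def SA1_stmt : Prop :=
  ∀ (p : ℕ) (M : Ideal (integralClosure ℤ ℂ)), Setup p M → ∀ (G : Type) [Group G] [Finite G]
    (e f : G → ℂ), (∀ x, IntAt M (e x)) → (∀ x, IntAt M (f x)) → cv e e = e → cv f f = f →
    cv e f = cv f e → (∀ x, InM M (e x - f x)) → e = f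

/-- **SA2** (short to medium; from PLF, CVF). Write `≡` for: the difference has `InM` values (compatible with `+`, `cv` with `IntAt` functions). Let `i = plv n c a`,
`i' = plv n' c' a`; then `i = cv a u = cv u a`, `u = ∑_{k<n} c k • cvp a k`, and everything commutes. `i ≡ i^N = a^N u^N` for `N ≥ 1` (if `N = 0` the hypothesis says
`dl ≡ i`, multiply by `a` to get it for `N = 1`), so `i (dl - i') ≡ u^N a^N (dl - i') ≡ 0`, i.e. `i ≡ i i'`. By symmetry `i' ≡ i' i = i i'`. So `i ≡ i'`. -/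
def SA2_stmt : Prop :=
  ∀ (p : ℕ) (M : Ideal (integralClosure ℤ ℂ)), Setup p M → ∀ (G : Type) [Group G] [Finite G]
    (a : G → ℂ), (∀ x, IntAt M (a x)) → ∀ (n : ℕ) (c : ℕ → ℂ) (n' : ℕ) (c' : ℕ → ℂ),
    (∀ k, IntAt M (c k)) → (∀ k, IntAt M (c' k)) →
    (∀ x, InM M (cv (plv n c a) (plv n c a) x - plv n c a x)) →
    (∀ x, InM M (cv (plv n' c' a) (plv n' c' a) x - plv n' c' a x)) → ∀ N : ℕ,
    (∀ x, InM M (cvp a N x - cv (cvp a N) (plv n c a) x)) →
    (∀ x, InM M (cvp a N x - cv (cvp a N) (plv n' c' a) x)) →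
    ∀ x, InM M (plv n c a x - plv n' c' a x)

/-- **BRQ** (short to medium; from ORB, or copy C6 of DI / BRP of OB). Brauer homomorphism for a `p`-subgroup `P` and `P`-invariant functions on `H`. Proof: let
`K = H ⊓ cz P`. For `x ∉ K` both sides are `0`. For `c ∈ K`: `cv z w c = ∑_x z x * w (x⁻¹ * c)`; `P` acts on `G` by conjugation, the summand is `P`-invariant
(`c` commutes with `P`), and the `x` which are not in `cz P` lie in `P`-orbits of length divisible by `p`, so they contribute `p * IntAt`; for `x ∈ cz P`,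
`x ∈ H` and `x⁻¹ c ∈ K` or the term is `0`. (Orbit counting: group the sum by orbits of `P` (`MulAction`, `IsPGroup`), or induct over the generators of `P`
with ORB, `r = 0`; see also `Pool/Agent/helper45/DI/C6.lean`.) -/
def BRQ_stmt : Prop :=
  ∀ (p : ℕ) (M : Ideal (integralClosure ℤ ℂ)), Setup p M → ∀ (G : Type) [Group G] [Finite G]
    (H P : Subgroup G), IsPGroup p P → ∀ z w : G → ℂ, (∀ x, x ∉ H → z x = 0) →
    (∀ x, x ∉ H → w x = 0) → (∀ x, IntAt M (z x)) → (∀ x, IntAt M (w x)) → Inv P z → Inv P w →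
    ∀ x, InM M (rsk (H ⊓ cz P) (cv z w) x - cv (rsk (H ⊓ cz P) z) (rsk (H ⊓ cz P) w) x)

/-- **BRK** (short; from BRQ, PLF, CVF). Polynomials: induction over the exponent, `k ≥ 1` (`cvp a 1 = a`), BRQ for `cvp a k` and `a`, then linearity. -/
def BRK_stmt : Prop :=
  ∀ (p : ℕ) (M : Ideal (integralClosure ℤ ℂ)), Setup p M → ∀ (G : Type) [Group G] [Finite G]
    (H P : Subgroup G), IsPGroup p P → ∀ a : G → ℂ, (∀ x, x ∉ H → a x = 0) →
    (∀ x, IntAt M (a x)) → Inv P a →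
    (∀ (k : ℕ) (x : G), 1 ≤ k →
      InM M (rsk (H ⊓ cz P) (cvp a k) x - cvp (rsk (H ⊓ cz P) a) k x)) ∧
    ∀ (n : ℕ) (c : ℕ → ℂ), (∀ k, IntAt M (c k)) →
      ∀ x, InM M (rsk (H ⊓ cz P) (plv n c a) x - plv n c (rsk (H ⊓ cz P) a) x)

end Pool.Agent.FI
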