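import Pool.Agent.helper83.GR.All
import Pool.Agent.helper45.FIB.ZEA
import Pool.Agent.helper24.FIB.RPW
import Pool.Agent.helper6.FIB.RGM
import Pool.Agent.helper68.FIB.COF
import Pool.Agent.helper24.FIB.EVF
import Pool.Agent.helper83.FIB.EVM
import Pool.Agent.helper24.FIB.TRC
import Pool.Agent.helper24.FIB.CHC
import Pool.Agent.helper83.FIB.CJIx
import Pool.Agent.helper83.FIB.RPY
import Pool.Agent.helper20.FIB.RCY
import Pool.Agent.helper3.FIB.RGK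
import Pool.Agent.helper39.FIB.RR1
import Pool.Agent.helper72.FIB.RR2
import Pool.Agent.helper20.FIB.RR3
import Pool.Agent.helper72.FIB.RR4
import Pool.Agent.helper44.FIB.PRJ
import Pool.Agent.helper49.FIB.TRP
import Pool.Agent.helper57.FIB.IDR
import Pool.Agent.helper57.FIB.IDB
import Pool.Agent.helper80.FIB.IDP
import Pool.Agent.helper48.FIB.PLF
import Pool.Agent.helper48.FIB.SA1
import Pool.Agent.helper48.FIB.SA2
import Pool.Agent.helper50.FIB.BRQ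
import Pool.Agent.helper50.FIB.BRK

/-! Project fi, BLOCK R: all rows. -/

set_option autoImplicit false

namespace Pool.Agent.FI.AllR

open Pool.Agent.helper58.DC Pool.Agent.DI Pool.Agent.GR Pool.Agent.OB Pool.Agent.FI

theorem rZEA : Pool.Agent.FI.ZEA_stmt := Pool.Agent.FI.ZEA Pool.Agent.GR.All.dZER
theorem rRPW : Pool.Agent.FI.RPW_stmt := Pool.Agent.FI.RPW Pool.Agent.GR.All.dVAL
theorem rRGM : Pool.Agent.FI.RGM_stmt := Pool.Agent.FI.RGM Pool.Agent.GR.All.dORB rRPW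
theorem rCOF : Pool.Agent.FI.COF_stmt := Pool.Agent.FI.COF 
theorem rEVF : Pool.Agent.FI.EVF_stmt := Pool.Agent.FI.EVF Pool.Agent.GR.All.dB2
theorem rEVM : Pool.Agent.FI.EVM_stmt := Pool.Agent.FI.EVM Pool.Agent.GR.All.dSCH Pool.Agent.GR.All.dB2 Pool.Agent.GR.All.dCVF
theorem rTRC : Pool.Agent.FI.TRC_stmt := Pool.Agent.FI.TRC Pool.Agent.GR.All.dIDM Pool.Agent.GR.All.dEXP Pool.Agent.GR.All.dCCI Pool.Agent.GR.All.dCVF Pool.Agent.GR.All.dB2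
theorem rCHC : Pool.Agent.FI.CHC_stmt := Pool.Agent.FI.CHC Pool.Agent.GR.All.dGLP
theorem rCJI : Pool.Agent.FI.CJI_stmt := Pool.Agent.FI.CJIx 
theorem rRPY : Pool.Agent.FI.RPY_stmt := Pool.Agent.FI.RPY 
theorem rRCY : Pool.Agent.FI.RCY_stmt := Pool.Agent.FI.RCY Pool.Agent.GR.All.dORB
theorem rRGK : Pool.Agent.FI.RGK_stmt := Pool.Agent.FI.RGK rRGM rTRC rCOF rZEA
theorem rRR1 : Pool.Agent.FI.RR1_stmt := Pool.Agent.FI.RR1 rRGK rRCY rRPY rCJI Pool.Agent.GR.All.dB2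
theorem rRR2 : Pool.Agent.FI.RR2_stmt := Pool.Agent.FI.RR2 rRGK rRCY rRPY rCOF rEVF
theorem rRR3 : Pool.Agent.FI.RR3_stmt := Pool.Agent.FI.RR3 rRGM rTRC rCOF rZEA
theorem rRR4 : Pool.Agent.FI.RR4_stmt := Pool.Agent.FI.RR4 rRR3 rEVM rCJI Pool.Agent.GR.All.dIDM Pool.Agent.GR.All.dEIN Pool.Agent.GR.All.dSFC Pool.Agent.GR.All.dB2
theorem rPRJ : Pool.Agent.FI.PRJ_stmt := Pool.Agent.FI.PRJ Pool.Agent.GR.All.dKEY rZEA
theorem rTRP : Pool.Agent.FI.TRP_stmt := Pool.Agent.FI.TRP rPRJ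
theorem rIDR : Pool.Agent.FI.IDR_stmt := Pool.Agent.FI.IDR 
theorem rIDB : Pool.Agent.FI.IDB_stmt := Pool.Agent.FI.IDB rIDR
theorem rIDP : Pool.Agent.FI.IDP_stmt := Pool.Agent.FI.IDP rIDB Pool.Agent.GR.All.dCVF
theorem rPLF : Pool.Agent.FI.PLF_stmt := Pool.Agent.FI.PLF Pool.Agent.GR.All.dCVF
theorem rSA1 : Pool.Agent.FI.SA1_stmt := Pool.Agent.FI.SA1 Pool.Agent.GR.All.dPRD rZEA Pool.Agent.GR.All.dCVF
theorem rSA2 : Pool.Agent.FI.SA2_stmt := Pool.Agent.FI.SA2 rPLF Pool.Agent.GR.All.dCVF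
theorem rBRQ : Pool.Agent.FI.BRQ_stmt := Pool.Agent.FI.BRQ Pool.Agent.GR.All.dORB
theorem rBRK : Pool.Agent.FI.BRK_stmt := Pool.Agent.FI.BRK rBRQ rPLF Pool.Agent.GR.All.dCVF

end Pool.Agent.FI.AllR
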